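import Pool.Agent.N469.TL.Law
import Pool.Agent.TH935.GF2
import Pool.Agent.H373R2.T7.BilE
import Pool.Agent.W93.GB4

set_option autoImplicit false

/-! Families of nearly minimal additive energy have a thin large spectrum; from random integers with a thin large spectrum to
such families. -/

namespace Pool.Agent.J4H77.DT
open Finset
open Pool.Agent.H373R2.T7
open Pool.Agent.H807R2.Dav
open Pool.Agent.Y885 (TLaw Thin Spec)
open Pool.Agent.TH935.GF (En)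

/-- an enumeration of a finite set -/
lemma enum {ι : Type} [Nonempty ι] (T : Finset ι) : ∃ f : ℕ → ι, (∀ m ∈ Icc 1 T.card, f m ∈ T) ∧
    (∀ m ∈ Icc 1 T.card, ∀ m' ∈ Icc 1 T.card, f m = f m' → m = m') ∧ ∀ i ∈ T, ∃ m ∈ Icc 1 T.card, f m = i := by
  classical
  obtain ⟨x, hx⟩ : ∃ x, x = T.card := ⟨_, rfl⟩
  rw [← hx]
  obtain ⟨e⟩ : Nonempty ((Icc 1 x : Finset ℕ) ≃ T) := ⟨Finset.equivOfCardEq (by rw [Nat.card_Icc, hx]; omega)⟩
  obtain ⟨f, hf⟩ : ∃ f : ℕ → ι, f = fun m => if hm : m ∈ Icc 1 x then (e ⟨m, hm⟩ : ι) else Classical.arbitrary ι := ⟨_, rfl⟩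
  have hf1 : ∀ m (hm : m ∈ Icc 1 x), f m = (e ⟨m, hm⟩ : ι) := by
    intro m hm
    rw [hf]
    simp only
    rw [dif_pos hm]
  refine ⟨f, ?_, ?_, ?_⟩
  · intro m hm
    rw [hf1 m hm]
    exact (e ⟨m, hm⟩).2
  · intro m hm m' hm' h2
    rw [hf1 m hm, hf1 m' hm'] at h2
    have h3 := e.injective (Subtype.ext h2)
    exact congrArg Subtype.val h3
  · intro i hi
    refine ⟨(e.symm ⟨i, hi⟩ : ℕ), (e.symm ⟨i, hi⟩).2, ?_⟩
    rw [hf1 _ (e.symm ⟨i, hi⟩).2]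
    simp

/-- the even moment of the exponential sum -/
lemma moment_le (h : ℕ) {ι : Type} [Fintype ι] [Nonempty ι] (v : ι → ℤ) (T : Finset ι) (M R : ℕ) (hM : 1 ≤ M)
    (hR : ∀ i ∈ T, |v i| ≤ R) (hMR : 2 * h * R < M) :
    ∑ t ∈ range M, ‖∑ i ∈ T, ee ((t : ℝ) * ((v i : ℝ) / M))‖ ^ (2 * h) ≤ M * En h v := by
  classical
  obtain ⟨f, f1, f2, f3⟩ := enum T
  obtain ⟨s, hs⟩ : ∃ s : ℕ → ℤ, s = fun m => v (f m) := ⟨_, rfl⟩
  have hsum : ∀ g : ι → ℂ, ∑ m ∈ Icc 1 T.card, g (f m) = ∑ i ∈ T, g i := fun g =>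
    sum_bij (fun m _ => f m) f1 f2 (fun i hi => by
      obtain ⟨m, hm, he⟩ := f3 i hi
      exact ⟨m, hm, he⟩) (fun m _ => rfl)
  have h1 := moment_energy h T.card s M R hM (fun m hm => by rw [hs]; exact hR _ (f1 m hm)) hMR
  have h2 : ∑ t ∈ range M, ‖∑ i ∈ T, ee ((t : ℝ) * ((v i : ℝ) / M))‖ ^ (2 * h) =
      ∑ t ∈ range M, ‖∑ m ∈ Icc 1 T.card, ee ((t : ℝ) * ((s m : ℝ) / M))‖ ^ (2 * h) := by
    apply sum_congr rfl
    intro t _
    rw [hs, ← hsum (fun i => ee ((t : ℝ) * ((v i : ℝ) / M)))]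
  rw [h2, h1]
  have hen : energy h T.card s ≤ En h v := by
    unfold energy En
    rw [Nat.card_eq_fintype_card, Fintype.card_subtype]
    apply card_le_card_of_injOn (fun q => (fun j => f (q.1 j), fun j => f (q.2 j)))
    · intro q hq
      rw [mem_coe, mem_filter, mem_product, Fintype.mem_piFinset, Fintype.mem_piFinset] at hq
      rw [mem_coe, mem_filter]
      refine ⟨mem_univ _, ?_⟩
      have h3 := hq.2
      rw [hs] at h3
      exact h3
    · intro q hq q' hq' h2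
      rw [mem_coe, mem_filter, mem_product, Fintype.mem_piFinset, Fintype.mem_piFinset] at hq hq'
      simp only [Prod.mk.injEq] at h2
      apply Prod.ext
      · funext j
        exact f2 _ (hq.1.1 j) _ (hq'.1.1 j) (congrFun h2.1 j)
      · funext j
        exact f2 _ (hq.1.2 j) _ (hq'.1.2 j) (congrFun h2.2 j)
  apply mul_le_mul_of_nonneg_left _ (Nat.cast_nonneg M)
  exact_mod_cast hen

/-- few members of a family of small energy lie in a short interval -/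
lemma small_le (h : ℕ) {ι : Type} [Fintype ι] [Nonempty ι] (v : ι → ℤ) (T : Finset ι) (X : ℕ) (hT : ∀ i ∈ T, |v i| ≤ X) :
    T.card ^ (2 * h) ≤ (h * (2 * X) + 1) * En h v := by
  classical
  obtain ⟨f, f1, f2, f3⟩ := enum T
  obtain ⟨s, hs⟩ : ∃ s : ℕ → ℕ, s = fun m => (v (f m) + X).toNat := ⟨_, rfl⟩
  have hsv : ∀ m ∈ Icc 1 T.card, ((s m : ℕ) : ℤ) = v (f m) + X := by
    intro m hm
    have h1 := (abs_le.1 (hT _ (f1 m hm))).1
    rw [hs]
    exact Int.toNat_of_nonneg (by linarith)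
  have h0 := Pool.Agent.W93.GB.small_count h T.card (2 * X) s (Icc 1 T.card) subset_rfl (by
    intro m hm
    have h1 := (abs_le.1 (hT _ (f1 m hm))).2
    have h2 := hsv m hm
    have h3 : ((s m : ℕ) : ℤ) ≤ ((2 * X : ℕ) : ℤ) := by
      rw [h2]
      push_cast
      linarith
    exact_mod_cast h3)
  rw [Nat.card_Icc, Nat.add_sub_cancel] at h0
  refine h0.trans (Nat.mul_le_mul_left _ ?_)
  unfold Pool.Agent.H560R3.GB.energy En
  rw [Nat.card_eq_fintype_card, Fintype.card_subtype]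
  apply card_le_card_of_injOn (fun q => (fun j => f (q.1 j), fun j => f (q.2 j)))
  · intro q hq
    rw [mem_coe, mem_filter, mem_product, Fintype.mem_piFinset, Fintype.mem_piFinset] at hq
    rw [mem_coe, mem_filter]
    refine ⟨mem_univ _, ?_⟩
    simp only
    have e1 : ∑ j, (v (f (q.1 j)) + X) = ((∑ j, s (q.1 j) : ℕ) : ℤ) := by
      push_cast
      exact sum_congr rfl fun j _ => (hsv _ (hq.1.1 j)).symm
    have e2 : ∑ j, (v (f (q.2 j)) + X) = ((∑ j, s (q.2 j) : ℕ) : ℤ) := by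
      push_cast
      exact sum_congr rfl fun j _ => (hsv _ (hq.1.2 j)).symm
    have e3 : ∑ j, (v (f (q.1 j)) + (X : ℤ)) = ∑ j, (v (f (q.2 j)) + (X : ℤ)) := by rw [e1, e2, hq.2]
    rw [sum_add_distrib, sum_add_distrib] at e3
    linarith
  · intro q hq q' hq' h2
    rw [mem_coe, mem_filter, mem_product, Fintype.mem_piFinset, Fintype.mem_piFinset] at hq hq'
    simp only [Prod.mk.injEq] at h2
    apply Prod.ext
    · funext j
      exact f2 _ (hq.1.1 j) _ (hq'.1.1 j) (congrFun h2.1 j)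
    · funext j
      exact f2 _ (hq.1.2 j) _ (hq'.1.2 j) (congrFun h2.2 j)

/-- a family of nearly minimal additive energy has a thin large spectrum -/
theorem energy_law (h C B V e : ℕ) (he : 2 * h * B ≤ 2 ^ (e + 1)) : ∃ c N₀ : ℕ, ∀ N : ℕ, N₀ ≤ N → ∀ (ι : Type) [Fintype ι]
    [Nonempty ι] (v : ι → ℤ), (En h v : ℝ) * N ≤ Real.log N ^ C * (Fintype.card ι : ℝ) ^ (2 * h) →
    ∀ T : Finset ι, (∀ i ∈ T, |v i| ≤ (B : ℤ) * N) →
    TLaw 2 3 c V (Nat.log 2 N + 1 + e) T (fun _ => 1 / (Fintype.card ι : ℝ)) v := by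
  classical
  obtain ⟨G, hG⟩ : ∃ G : ℕ, G = 2 ^ (2 ^ (e + 2)) := ⟨_, rfl⟩
  refine ⟨2 * h * V + C + 1, G + 2, fun N hN ι _ _ v hE T hT => ?_⟩
  obtain ⟨K, hK⟩ : ∃ K, K = Nat.log 2 N + 1 + e := ⟨_, rfl⟩
  rw [← hK]
  have hN0 : 0 < N := by omega
  have hNr : (0 : ℝ) < N := by exact_mod_cast hN0
  have hx0 : (0 : ℝ) < Fintype.card ι := by exact_mod_cast Fintype.card_pos
  have hlogN : 2 ^ (e + 2) ≤ Nat.log 2 N := Nat.le_log_of_pow_le (by omega) (by rw [← hG]; omega)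
  have hlow : 2 ^ (Nat.log 2 N) ≤ N := Nat.pow_log_le_self 2 (by omega)
  have hup : N < 2 ^ (Nat.log 2 N + 1) := Nat.lt_pow_succ_log_self (by omega) _
  have hKe : 2 ^ (e + 2) ≤ K := hlogN.trans (by omega)
  have hK1 : 1 ≤ K := by omega
  have hKr : (1 : ℝ) ≤ K := by exact_mod_cast hK1
  have hLK : Real.log (N : ℝ) ≤ K := by
    have h1 := (Pool.Agent.N469.TL.log_digits N (by omega)).1
    refine h1.trans ?_
    exact_mod_cast (by omega : Nat.log 2 N + 1 ≤ K)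
  have hL0 : 0 ≤ Real.log (N : ℝ) := Real.log_natCast_nonneg N
  obtain ⟨M, hM⟩ : ∃ M, M = 2 ^ (K + 1) := ⟨_, rfl⟩
  have hM1 : 1 ≤ M := by rw [hM]; exact Nat.one_le_two_pow
  have hMN : 2 * h * (B * N) < M := by
    have e1 : M = 2 ^ (e + 1) * 2 ^ (Nat.log 2 N + 1) := by rw [hM, hK, ← pow_add]; congr 1; ring
    rw [e1]
    calc 2 * h * (B * N) = (2 * h * B) * N := by ring
      _ ≤ 2 ^ (e + 1) * N := Nat.mul_le_mul_right _ he
      _ < _ := Nat.mul_lt_mul_of_pos_left hup (by positivity)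
  have hMN2 : M ≤ 2 ^ (e + 2) * N := by
    have e1 : M = 2 ^ (e + 2) * 2 ^ (Nat.log 2 N) := by rw [hM, hK, ← pow_add]; congr 1; ring
    rw [e1]
    exact Nat.mul_le_mul_left _ hlow
  have hmom := moment_le h v T M (B * N) hM1 (fun i hi => by
    have := hT i hi
    push_cast
    exact this) hMN
  refine ⟨fun _ _ => by positivity, ?_, ?_⟩
  · rw [sum_const, nsmul_eq_mul, mul_one_div, div_le_one hx0]
    exact_mod_cast card_le_univ T
  apply Pool.Agent.N469.TL.thin_card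
  · intro t ht
    unfold Spec at ht
    rw [mem_filter, mem_range] at ht
    exact ht.1
  -- the number of the large values
  obtain ⟨S, hS⟩ : ∃ S, S = Spec 2 V K T (fun _ => 1 / (Fintype.card ι : ℝ)) v := ⟨_, rfl⟩
  rw [← hS]
  have hlarge : ∀ t ∈ S, t ∈ range M ∧ (Fintype.card ι : ℝ) / K ^ V ≤ ‖∑ i ∈ T, ee ((t : ℝ) * ((v i : ℝ) / M))‖ := by
    intro t ht
    rw [hS] at ht
    unfold Spec at ht
    rw [mem_filter] at ht
    refine ⟨by rw [hM]; exact ht.1, ?_⟩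
    have h1 := ht.2
    rw [← mul_sum, norm_mul, Complex.norm_real, Real.norm_of_nonneg (by positivity)] at h1
    have e1 : ∑ i ∈ T, ee ((v i : ℝ) * ((t : ℝ) / ((2 ^ (K + 1) : ℕ) : ℝ))) = ∑ i ∈ T, ee ((t : ℝ) * ((v i : ℝ) / M)) := by
      apply sum_congr rfl
      intro i _
      rw [hM]
      congr 1
      ring
    rw [e1] at h1
    rw [div_mul_eq_mul_div, one_mul, lt_div_iff₀ hx0] at h1
    calc (Fintype.card ι : ℝ) / K ^ V = 1 / K ^ V * Fintype.card ι := by ring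
      _ ≤ _ := h1.le
  have h1 : (S.card : ℝ) * ((Fintype.card ι : ℝ) / K ^ V) ^ (2 * h) ≤ M * En h v := by
    refine le_trans ?_ hmom
    rw [← nsmul_eq_mul, ← sum_const]
    calc ∑ _t ∈ S, ((Fintype.card ι : ℝ) / K ^ V) ^ (2 * h) ≤ ∑ t ∈ S, ‖∑ i ∈ T, ee ((t : ℝ) * ((v i : ℝ) / M))‖ ^ (2 * h) :=
          sum_le_sum fun t ht => pow_le_pow_left₀ (by positivity) (hlarge t ht).2 _
      _ ≤ _ := sum_le_sum_of_subset_of_nonneg (fun t ht => (hlarge t ht).1) (fun _ _ _ => by positivity)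
  have hX : (0 : ℝ) < (Fintype.card ι : ℝ) ^ (2 * h) := by positivity
  have h2 : (M : ℝ) * En h v ≤ 2 ^ (e + 2) * (Real.log N ^ C * (Fintype.card ι : ℝ) ^ (2 * h)) := by
    calc (M : ℝ) * En h v ≤ (2 ^ (e + 2) * N) * En h v := by
          apply mul_le_mul_of_nonneg_right _ (Nat.cast_nonneg _)
          exact_mod_cast hMN2
      _ = 2 ^ (e + 2) * (En h v * N) := by ring
      _ ≤ _ := mul_le_mul_of_nonneg_left hE (by positivity)
  have h3 : (S.card : ℝ) ≤ (K : ℝ) ^ (2 * h * V) * (2 ^ (e + 2) * Real.log N ^ C) := by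
    have h4 : (S.card : ℝ) * ((Fintype.card ι : ℝ) / K ^ V) ^ (2 * h) ≤
        2 ^ (e + 2) * (Real.log N ^ C * (Fintype.card ι : ℝ) ^ (2 * h)) := h1.trans h2
    rw [div_pow, ← pow_mul, mul_div_assoc', div_le_iff₀ (by positivity)] at h4
    have h5 : (S.card : ℝ) * (Fintype.card ι : ℝ) ^ (2 * h) ≤
        ((K : ℝ) ^ (2 * h * V) * (2 ^ (e + 2) * Real.log N ^ C)) * (Fintype.card ι : ℝ) ^ (2 * h) := by
      refine h4.trans (le_of_eq ?_)
      rw [show V * (2 * h) = 2 * h * V by ring]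
      ring
    exact le_of_mul_le_mul_right h5 hX
  have h6 : (S.card : ℝ) ≤ ((K ^ (2 * h * V + C + 1) : ℕ) : ℝ) := by
    refine h3.trans ?_
    push_cast
    calc (K : ℝ) ^ (2 * h * V) * (2 ^ (e + 2) * Real.log N ^ C) ≤ (K : ℝ) ^ (2 * h * V) * (K * (K : ℝ) ^ C) := by
          apply mul_le_mul_of_nonneg_left _ (by positivity)
          apply mul_le_mul _ (pow_le_pow_left₀ hL0 hLK _) (by positivity) (by positivity)
          exact_mod_cast hKe
      _ = _ := by ring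
  exact_mod_cast h6

open Classical in
/-- from an estimate for random integers with a thin large spectrum to all the integers near the members of a family -/
theorem thin_gen (h B C W U : ℕ) (hh : 1 ≤ h) (P : ℕ → ℕ → Prop)
    (hEng : ∀ B' W' U' : ℕ, ∃ V e₀ : ℕ, ∀ e : ℕ, e₀ ≤ e → ∀ c : ℕ, ∃ N₀ : ℕ, ∀ N : ℕ, N₀ ≤ N →
      ∀ (ι : Type) (Ω : Finset ι) (p : ι → ℝ) (Y : ι → ℤ), TLaw 2 3 c V (Nat.log 2 N + 1 + e) Ω p Y →
      (∀ ω ∈ Ω, |Y ω| ≤ (B' : ℤ) * N) → (∀ ω ∈ Ω, ∃ n : ℕ, |((n - Y ω : ℤ) : ℝ)| ≤ Real.log N ^ W ∧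
        (N : ℝ) / Real.log N ^ W' ≤ n ∧ ¬ P N n) → ∑ ω ∈ Ω, p ω ≤ 1 / Real.log N ^ U') :
    ∃ N₀ : ℕ, ∀ N : ℕ, N₀ ≤ N → ∀ (ι : Type) [Fintype ι] (v : ι → ℤ), (∀ i, v i ≤ B * N) →
    (En h v : ℝ) * N ≤ Real.log N ^ C * (Fintype.card ι : ℝ) ^ (2 * h) →
    ((univ.filter (fun i => ∃ n : ℕ, |((n - v i : ℤ) : ℝ)| ≤ Real.log N ^ W ∧ ¬ P N n)).card : ℝ) ≤
      Fintype.card ι / Real.log N ^ U := by
  obtain ⟨W', hW'⟩ : ∃ W', W' = C + 2 * h * (U + 1) + 1 := ⟨_, rfl⟩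
  obtain ⟨V, e₀, hV⟩ := hEng (B + 1) W' (U + 1)
  obtain ⟨e, he1, he2⟩ : ∃ e, e₀ ≤ e ∧ 2 * h * (B + 1) ≤ 2 ^ (e + 1) := by
    refine ⟨e₀ + 2 * h * (B + 1), by omega, ?_⟩
    have h1 : e₀ + 2 * h * (B + 1) + 1 < 2 ^ (e₀ + 2 * h * (B + 1) + 1) := Nat.lt_two_pow_self
    omega
  obtain ⟨c, N₁, h1⟩ := energy_law h C (B + 1) V e he2
  obtain ⟨N₂, h2⟩ := hV e he1 c
  obtain ⟨n3, h3⟩ := ev_L' (4 * h + 2)
  obtain ⟨n4, h4⟩ := ev_log' (W + W') 1
  refine ⟨N₁ + N₂ + n3 + n4 + 4, fun N hN ι _ v hv hE => ?_⟩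
  rcases isEmpty_or_nonempty ι with hι | hι
  · rw [univ_eq_empty, filter_empty, card_empty]
    have : 0 ≤ (Fintype.card ι : ℝ) / Real.log N ^ U :=
      div_nonneg (Nat.cast_nonneg _) (pow_nonneg (Real.log_natCast_nonneg N) _)
    simp
  have hL := h3 N (by omega)
  have hLW := h4 N (by omega)
  rw [one_mul] at hLW
  have hN4 : (4 : ℝ) ≤ N := by exact_mod_cast (by omega : 4 ≤ N)
  have hN0 : (0 : ℝ) < N := by linarith
  obtain ⟨L, hLd⟩ : ∃ L, L = Real.log (N : ℝ) := ⟨_, rfl⟩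
  have c1 := h1 N (by omega) ι v hE
  have c2 := h2 N (by omega) ι
  rw [← hLd] at hL hLW hE c2 ⊢
  have hh0 : (1 : ℝ) ≤ h := by exact_mod_cast hh
  have hL1 : 1 ≤ L := by linarith
  have hL2 : 2 ≤ L := by linarith
  have hL0 : 0 < L := by linarith
  have hss : √(N : ℝ) * √(N : ℝ) = N := Real.mul_self_sqrt hN0.le
  have hs1 : 1 ≤ √(N : ℝ) := by
    rw [Real.one_le_sqrt]
    linarith
  have hWN : L ^ W ≤ N / L ^ W' := by
    rw [le_div_iff₀ (by positivity), ← pow_add]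
    nlinarith
  have hW1 : L ^ W ≤ N := hWN.trans (div_le_self hN0.le (one_le_pow₀ hL1))
  obtain ⟨S, hS⟩ : ∃ S, S = univ.filter (fun i => ∃ n : ℕ, |((n - v i : ℤ) : ℝ)| ≤ L ^ W ∧ ¬ P N n) := ⟨_, rfl⟩
  rw [← hS]
  obtain ⟨X, hX⟩ : ∃ X : ℕ, X = ⌊2 * ((N : ℝ) / L ^ W')⌋₊ := ⟨_, rfl⟩
  obtain ⟨S1, hS1⟩ : ∃ S1, S1 = S.filter (fun i => |v i| ≤ X) := ⟨_, rfl⟩
  obtain ⟨S2, hS2⟩ : ∃ S2, S2 = S.filter (fun i => ¬ |v i| ≤ X) := ⟨_, rfl⟩
  have hcard : S.card = S1.card + S2.card := by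
    rw [hS1, hS2]
    exact (card_filter_add_card_filter_not (s := S) (fun i => |v i| ≤ X)).symm
  obtain ⟨x, hx⟩ : ∃ x : ℝ, x = Fintype.card ι := ⟨_, rfl⟩
  have hx0 : 0 < x := by rw [hx]; exact_mod_cast Fintype.card_pos
  rw [← hx] at hE c1 ⊢
  -- the large members
  have hn : ∀ i ∈ S2, ∃ n : ℕ, |((n - v i : ℤ) : ℝ)| ≤ L ^ W ∧ (N : ℝ) / L ^ W' ≤ n ∧ ¬ P N n := by
    intro i hi
    rw [hS2, mem_filter, hS, mem_filter] at hi
    obtain ⟨⟨_, n, hn1, hn2⟩, hn3⟩ := hi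
    refine ⟨n, hn1, ?_, hn2⟩
    by_contra hcon
    push Not at hcon
    apply hn3
    have q1 : ((|v i| : ℤ) : ℝ) ≤ 2 * ((N : ℝ) / L ^ W') := by
      have q2 : (v i : ℝ) = n - ((n - v i : ℤ) : ℝ) := by push_cast; ring
      rw [Int.cast_abs, q2]
      refine (abs_sub _ _).trans ?_
      rw [abs_of_nonneg (Nat.cast_nonneg n : (0 : ℝ) ≤ n)]
      linarith
    rw [Int.abs_eq_natAbs, Int.cast_natCast] at q1
    rw [Int.abs_eq_natAbs]
    have q3 : (v i).natAbs ≤ X := by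
      rw [hX]
      exact Nat.le_floor q1
    exact_mod_cast q3
  have hbd : ∀ i ∈ S2, |v i| ≤ ((B + 1 : ℕ) : ℤ) * N := by
    intro i hi
    obtain ⟨n, hn1, _, _⟩ := hn i hi
    have q1 := hv i
    have q2 := (abs_le.1 hn1).2
    have q3 : (n : ℤ) - v i ≤ N := by
      have : ((n - v i : ℤ) : ℝ) ≤ ((N : ℤ) : ℝ) := by
        rw [Int.cast_natCast]
        linarith
      exact_mod_cast this
    have q4 : (0 : ℤ) ≤ n := Nat.cast_nonneg n
    have q5 : (0 : ℤ) ≤ B * N := by positivity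
    rw [abs_le]
    push_cast
    constructor <;> nlinarith
  have g2 : (S2.card : ℝ) ≤ x / L ^ (U + 1) := by
    have k1 := c2 S2 (fun _ => 1 / x) v (c1 S2 hbd) hbd hn
    rw [sum_const, nsmul_eq_mul, mul_one_div, div_le_div_iff₀ hx0 (by positivity)] at k1
    rw [le_div_iff₀ (by positivity)]
    linarith
  -- the small members
  have g1 : (S1.card : ℝ) ≤ x / L ^ (U + 1) := by
    have k1 := small_le h v S1 X (fun i hi => by
      rw [hS1, mem_filter] at hi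
      exact hi.2)
    have k2 : (S1.card : ℝ) ^ (2 * h) ≤ (h * (2 * X) + 1) * En h v := by exact_mod_cast k1
    have k3 : (h * (2 * (X : ℝ)) + 1) ≤ L * (N / L ^ W') := by
      have q1 : (X : ℝ) ≤ 2 * ((N : ℝ) / L ^ W') := by rw [hX]; exact Nat.floor_le (by positivity)
      have q2 : 1 ≤ (N : ℝ) / L ^ W' := (one_le_pow₀ hL1).trans hWN
      have q3 : (h : ℝ) * (2 * X) ≤ h * (2 * (2 * ((N : ℝ) / L ^ W'))) := by gcongr
      have q4 : (4 * (h : ℝ) + 2) * (N / L ^ W') ≤ L * (N / L ^ W') := mul_le_mul_of_nonneg_right hL (by positivity)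
      nlinarith
    have k4 : (S1.card : ℝ) ^ (2 * h) ≤ (x / L ^ (U + 1)) ^ (2 * h) := by
      calc (S1.card : ℝ) ^ (2 * h) ≤ (h * (2 * X) + 1) * En h v := k2
        _ ≤ (L * (N / L ^ W')) * En h v := mul_le_mul_of_nonneg_right k3 (Nat.cast_nonneg _)
        _ = L / L ^ W' * (En h v * N) := by ring
        _ ≤ L / L ^ W' * (L ^ C * x ^ (2 * h)) := mul_le_mul_of_nonneg_left hE (by positivity)
        _ = (x / L ^ (U + 1)) ^ (2 * h) := by
            rw [div_pow, ← pow_mul, hW', show C + 2 * h * (U + 1) + 1 = C + (U + 1) * (2 * h) + 1 by ring, pow_succ, pow_add]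
            field_simp
    exact (pow_le_pow_iff_left₀ (Nat.cast_nonneg _) (by positivity) (by omega)).1 k4
  rw [hcard]
  push_cast
  have hfin : x / L ^ (U + 1) + x / L ^ (U + 1) ≤ x / L ^ U := by
    rw [← two_mul, mul_div_assoc', div_le_div_iff₀ (by positivity) (by positivity), pow_succ]
    have : 0 < L ^ U := by positivity
    nlinarith [mul_pos hx0 this]
  linarith

end Pool.Agent.J4H77.DT
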