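import Pool.Agent.N625.PT.Q

set_option autoImplicit false

/-! A general principle for one prime value, for random integers with a thin large spectrum which are not small
(adapted from the starting file `Pool.Agent.N625.PT.Q`; here the exponent of the law does not depend on the base). -/

namespace Pool.Agent.J4H77.DT
open Finset
open Pool.Agent.H373R2.T7
open Pool.Agent.W93.DG
open Pool.Agent.Y885 (TLaw tl_one)
open Pool.Agent.N625.PT (Det)

open Classical in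
/-- the property holds for almost all values of a random integer with a thin large spectrum -/
theorem tl_genW {α : Type} (E W U : ℕ) (hE : 1 ≤ E) (Ad : ℕ → α → Prop) (P : α → ℕ → Prop) (hP : Det Ad P) :
    ∃ V : ℕ, ∀ b : ℕ, 2 ≤ b → ∀ c₂ : ℕ, ∃ K₀ : ℕ, ∀ K : ℕ, K₀ ≤ K →
    ∀ (ι : Type) (Ω : Finset ι) (p : ι → ℝ) (Y : ι → ℤ), TLaw b E c₂ V (K + 2) Ω p Y →
    (∀ ω ∈ Ω, |Y ω| ≤ (b : ℤ) ^ K) → ∀ a : α, Ad (b ^ K) a → ∀ bad : ι → Prop, ∀ _ : DecidablePred bad,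
    (∀ ω ∈ Ω, bad ω → ((b ^ K : ℕ) : ℝ) / Real.log ((b ^ K : ℕ) : ℝ) ^ W ≤ Y ω ∧ ¬ P a (Y ω).toNat) →
    ∑ ω ∈ Ω, (if bad ω then p ω else 0) ≤ 1 / (K : ℝ) ^ U := by
  classical
  obtain ⟨V0, T, hV0⟩ := hP W
  obtain ⟨U', hU'⟩ : ∃ U', U' = V0 + T + U + 3 := ⟨_, rfl⟩
  refine ⟨2 * U' + 6, fun b hb c₂ => ?_⟩
  obtain ⟨B1, hB1⟩ := tl_one b E c₂ hb hE U'
  obtain ⟨Ez, X0, hdet⟩ := hV0 (B1 + 1)
  obtain ⟨k2, h2⟩ := hB1 Ez
  obtain ⟨k3, hk3⟩ := exists_nat_ge ((2 : ℝ) ^ (B1 + 2))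
  obtain ⟨k4, hk4⟩ := exists_nat_ge ((b : ℝ) ^ (2 + (T + V0)))
  refine ⟨k2 + X0 + k3 + k4 + 4, fun K hk ι Ω p Yv hlaw₂ hYle a hAd bad _ hbad => ?_⟩
  have hbr : (2 : ℝ) ≤ b := by exact_mod_cast hb
  have hb0 : (0 : ℝ) < b := by linarith
  have hbn : 0 < b := by omega
  obtain ⟨X, hX⟩ : ∃ X, X = b ^ K := ⟨_, rfl⟩
  obtain ⟨Y, hY⟩ : ∃ Y, Y = b ^ (K + 2) := ⟨_, rfl⟩
  have hKX : K < X := by rw [hX]; exact Nat.lt_pow_self (by omega)
  have hX0 : (0 : ℝ) < X := by exact_mod_cast (by omega : 0 < X)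
  have hYX : Y = b ^ 2 * X := by rw [hY, hX, ← pow_add]; congr 1; ring
  obtain ⟨hL1, hL2⟩ := logX b K hb
  rw [← hX] at hL1 hL2 hAd
  obtain ⟨L, hL⟩ : ∃ L, L = Real.log (X : ℝ) := ⟨_, rfl⟩
  rw [← hL] at hL1 hL2
  have hK4 : (4 : ℝ) ≤ K := by exact_mod_cast (by omega : 4 ≤ K)
  have hL2' : 2 ≤ L := by linarith
  have hL1' : 1 ≤ L := by linarith
  have hL0 : 0 < L := by linarith
  have hk0 : (1 : ℝ) ≤ K := by linarith
  have hKr0 : (0 : ℝ) < K := by linarith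
  have hLY1 : L ≤ Real.log Y := by
    rw [hL]
    apply Real.log_le_log hX0
    rw [hYX]
    have : 1 ≤ b ^ 2 := Nat.one_le_pow _ _ hbn
    exact_mod_cast Nat.le_mul_of_pos_left X (by omega)
  have hLY2 : Real.log Y ≤ 2 * L := by
    have e1 : Real.log (Y : ℝ) = (K + 2 : ℕ) * Real.log b := by
      rw [hY]; push_cast; rw [Real.log_pow]; push_cast; ring
    have e2 : L = (K : ℕ) * Real.log b := by
      rw [hL, hX]; push_cast; rw [Real.log_pow]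
    rw [e1, e2]
    have e3 : 0 ≤ Real.log (b : ℝ) := Real.log_nonneg (by linarith)
    have e4 : ((K + 2 : ℕ) : ℝ) ≤ 2 * (K : ℕ) := by
      have : K + 2 ≤ 2 * K := by omega
      exact_mod_cast this
    calc ((K + 2 : ℕ) : ℝ) * Real.log b ≤ (2 * (K : ℕ)) * Real.log b := mul_le_mul_of_nonneg_right e4 e3
      _ = _ := by ring
  obtain ⟨z, w, hz1, hz2, hw, hN⟩ := hdet X (by omega) a hAd
  rw [← hL] at hz1 hz2 hN hw
  have hz3 : Real.log Y ^ B1 ≤ z := by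
    refine le_trans ?_ hz1
    have hk3L : (2 : ℝ) ^ B1 ≤ L := by
      have e1 : (k3 : ℝ) ≤ K := by exact_mod_cast (by omega : k3 ≤ K)
      have e2 : (2 : ℝ) ^ (B1 + 2) = 4 * 2 ^ B1 := by rw [pow_add]; ring
      have e3 : (0 : ℝ) < 2 ^ B1 := by positivity
      linarith
    calc Real.log Y ^ B1 ≤ (2 * L) ^ B1 := pow_le_pow_left₀ (by linarith) hLY2 _
      _ = 2 ^ B1 * L ^ B1 := mul_pow _ _ _
      _ ≤ L * L ^ B1 := mul_le_mul_of_nonneg_right hk3L (by positivity)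
      _ = L ^ (B1 + 1) := by ring
  have hz4 : (z : ℝ) ≤ Real.log Y ^ Ez := hz2.trans (pow_le_pow_left₀ hL0.le hLY1 _)
  have hXz : (X : ℤ) = (b : ℤ) ^ K := by rw [hX]; push_cast; ring
  have e2 : (b : ℤ) ^ (K + 2) = (b : ℤ) ^ 2 * X := by
    have : ((Y : ℕ) : ℤ) = ((b ^ 2 * X : ℕ) : ℤ) := by rw [hYX]
    rw [hY] at this
    push_cast at this
    exact this
  have e3 : (4 : ℤ) ≤ (b : ℤ) ^ 2 := by
    have : (2 : ℤ) ≤ b := by exact_mod_cast hb
    nlinarith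
  have e4 : (0 : ℤ) < X := by exact_mod_cast (by omega : 0 < X)
  have e5 : 4 * (X : ℤ) ≤ (b : ℤ) ^ (K + 2) := by
    rw [e2]
    exact mul_le_mul_of_nonneg_right e3 e4.le
  have t1 := h2 (K + 2) (by omega) z (by rw [← hY]; exact hz3) (by rw [← hY]; exact hz4) ι Ω p Yv hlaw₂ X (by
    intro ω hω
    have e6 := hYle ω hω
    rw [← hXz] at e6
    have e7 : (1 : ℤ) ≤ X := e4
    have e8 : (4 : ℤ) ≤ X := by exact_mod_cast (by omega : 4 ≤ X)
    linarith) (by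
    have e8 : (4 : ℤ) ≤ X := by exact_mod_cast (by omega : 4 ≤ X)
    linarith) (L ^ T) (by positivity) w hw
  rw [← hY] at t1
  obtain ⟨S, hS⟩ : ∃ S : ι → ℝ, S = fun ω => |∑ j ∈ Icc 1 X, w j * (lamI (Yv ω - j) - lamzI z (Yv ω - j))| := ⟨_, rfl⟩
  have hS0 : ∀ ω, 0 ≤ S ω := fun ω => by rw [hS]; exact abs_nonneg _
  have t1' : ∑ ω ∈ Ω, p ω * S ω ≤ L ^ T * ((Y : ℝ) / ((K + 2 : ℕ) : ℝ) ^ U') := by rw [hS]; exact t1
  obtain ⟨τ, hτ⟩ : ∃ τ, τ = (X : ℝ) / L ^ V0 := ⟨_, rfl⟩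
  have hτ0 : 0 < τ := by rw [hτ]; positivity
  have hmk : ∑ ω ∈ Ω, (if τ < S ω then p ω else 0) ≤ 1 / (K : ℝ) ^ (U + 1) := by
    have g1 : τ * ∑ ω ∈ Ω, (if τ < S ω then p ω else 0) ≤ ∑ ω ∈ Ω, p ω * S ω := by
      rw [mul_sum]
      apply sum_le_sum
      intro ω hω
      have hp := hlaw₂.nonneg ω hω
      split_ifs with h
      · rw [mul_comm]
        exact mul_le_mul_of_nonneg_left h.le hp
      · rw [mul_zero]
        exact mul_nonneg hp (hS0 ω)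
    have g2 : ∑ ω ∈ Ω, (if τ < S ω then p ω else 0) ≤ (L ^ T * ((Y : ℝ) / ((K + 2 : ℕ) : ℝ) ^ U')) / τ := by
      rw [le_div_iff₀ hτ0, mul_comm]
      exact g1.trans t1'
    refine g2.trans ?_
    have hYr : (Y : ℝ) = (b : ℝ) ^ 2 * X := by rw [hYX]; push_cast; ring
    have hKK : (K : ℝ) ≤ ((K + 2 : ℕ) : ℝ) := by push_cast; linarith
    calc (L ^ T * ((Y : ℝ) / ((K + 2 : ℕ) : ℝ) ^ U')) / τ ≤ (L ^ T * ((Y : ℝ) / (K : ℝ) ^ U')) / τ := by gcongr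
      _ = (b : ℝ) ^ 2 * L ^ (T + V0) / (K : ℝ) ^ U' := by
          rw [hYr, hτ, pow_add L]
          field_simp
      _ ≤ (b : ℝ) ^ 2 * (b * K) ^ (T + V0) / (K : ℝ) ^ U' := by gcongr
      _ = (b : ℝ) ^ (2 + (T + V0)) * (K : ℝ) ^ (T + V0) / (K : ℝ) ^ U' := by
          rw [mul_pow (b : ℝ) (K : ℝ), pow_add (b : ℝ) 2]; ring
      _ ≤ (K : ℝ) * (K : ℝ) ^ (T + V0) / (K : ℝ) ^ U' := by
          have : (b : ℝ) ^ (2 + (T + V0)) ≤ K := hk4.trans (by exact_mod_cast (by omega : k4 ≤ K))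
          gcongr
      _ = 1 / (K : ℝ) ^ (U + 2) := by
          have e1 : (K : ℝ) ^ U' = (K : ℝ) ^ (U + 2) * ((K : ℝ) * (K : ℝ) ^ (T + V0)) := by
            rw [hU', show V0 + T + U + 3 = (U + 2) + (1 + (T + V0)) by ring, pow_add, pow_add (K : ℝ) 1, pow_one]
          rw [e1]
          field_simp
      _ ≤ 1 / (K : ℝ) ^ (U + 1) := by
          apply one_div_le_one_div_of_le (by positivity)
          exact pow_le_pow_right₀ hk0 (by omega)
  refine le_trans ?_ (hmk.trans ?_)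
  · apply sum_le_sum
    intro d hd
    have hp := hlaw₂.nonneg d hd
    by_cases hB : bad d
    swap
    · rw [if_neg hB]
      split_ifs
      · exact hp
      · exact le_rfl
    rw [if_pos hB]
    obtain ⟨c1, c3⟩ := hbad d hd hB
    rw [← hX, ← hL] at c1
    have hSd : τ < S d := by
      by_contra hcon
      push Not at hcon
      apply c3
      have hpos : (0 : ℝ) < Yv d := lt_of_lt_of_le (by positivity) c1
      have hposz : 0 < Yv d := by exact_mod_cast hpos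
      obtain ⟨m, hm⟩ : ∃ m : ℕ, (m : ℤ) = Yv d := ⟨(Yv d).toNat, by omega⟩
      have hYd := hYle d hd
      rw [hS] at hcon
      simp only at hcon
      rw [← hm] at c1 hYd hcon ⊢
      rw [Int.toNat_natCast]
      have hmX : m ≤ X := by
        have e1 := (le_abs_self _).trans hYd
        rw [← hXz] at e1
        exact_mod_cast e1
      exact hN m (by exact_mod_cast c1) hmX (by rw [← hτ]; exact hcon)
    rw [if_pos hSd]
  · apply one_div_le_one_div_of_le (by positivity)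
    exact pow_le_pow_right₀ hk0 (by omega)

end Pool.Agent.J4H77.DT
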