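import Pool.Agent.N625.PT.Q
import Pool.Agent.Y885.LW
import Pool.Agent.N469.TL.Law

set_option autoImplicit false

/-! Properties which follow from the smallness of a sum over primes: they hold for all the integers near almost all the sums of
independent random integers. -/

namespace Pool.Agent.J4H77.DT
open Finset
open Pool.Agent.H373R2.T7
open Pool.Agent.Y885
open Pool.Agent.N625.PT (Det)

lemma sum_pow_le (b : ℕ) (hb : 2 ≤ b) (k : ℕ) : ∑ j : Fin k, (b : ℤ) ^ (j : ℕ) ≤ (b : ℤ) ^ k := by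
  have h := Fin.sum_univ_eq_sum_range (fun j => (b : ℤ) ^ j) k
  rw [h]
  clear h
  have hb2 : (2 : ℤ) ≤ b := by exact_mod_cast hb
  induction k with
  | zero => simp
  | succ k ih =>
    rw [sum_range_succ, pow_succ]
    have : 0 < (b : ℤ) ^ k := by positivity
    nlinarith

open Classical in
theorem rs_gen {α : Type} (b B D W R U : ℕ) (hb : 2 ≤ b) (hB : 1 ≤ B) (η δ : ℝ) (hη : 0 < η) (hδ : 0 < δ)
    (Ad : ℕ → α → Prop) (P : α → ℕ → Prop) (hP : Det Ad P) :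
    ∃ k₀ : ℕ, ∀ k : ℕ, k₀ ≤ k → ∀ (J : Finset ℕ) (s : ℕ → Finset ℤ) (p : ℕ → ℤ → ℝ) (c : ℤ),
    Rich δ D k J →
    (∀ j < k, (∀ x ∈ s j, 0 ≤ p j x ∧ |x| ≤ (B : ℤ) * (b : ℤ) ^ j) ∧ ∑ x ∈ s j, p j x = 1) →
    (∀ j ∈ J, ∀ y : ℤ, ∑ x ∈ s j, (if y ≤ x ∧ (B : ℤ) * (x - y) ≤ (b : ℤ) ^ j then p j x else 0) ≤ 1 - η) →
    |c| ≤ (B : ℤ) * (b : ℤ) ^ k → ∀ F : Finset α, F.card ≤ k ^ R →
    (∀ a ∈ F, ∀ K : ℕ, k ≤ K → K ≤ 2 * k → Ad (b ^ K) a) →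
    ∑ ω ∈ Fintype.piFinset (fun j : Fin k => s j), (if ∃ a ∈ F, ∃ m : ℕ, 0 < m ∧
      |(m : ℤ) - (c + ∑ j : Fin k, ω j)| ≤ (k : ℤ) ^ W ∧ ¬ P a m then ∏ j : Fin k, p j (ω j) else 0) ≤ 1 / (k : ℝ) ^ U := by
  obtain ⟨E, hE, hlaw⟩ := rand_law b hb B D hB η δ hη hδ
  obtain ⟨U', hU'⟩ : ∃ U', U' = U + W + R + 1 := ⟨_, rfl⟩
  obtain ⟨e, he⟩ : ∃ e, e = 2 * B + 1 + 2 := ⟨_, rfl⟩
  obtain ⟨c₁, m₁, h1⟩ := hlaw e (U' + 3)
  obtain ⟨V, hV⟩ := Pool.Agent.N625.PT.tl_gen b hb E c₁ U' hE Ad P hP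
  obtain ⟨c₂, m₂, h2⟩ := hlaw e V
  obtain ⟨K₀, h3⟩ := hV c₂
  obtain ⟨k₁, h4⟩ : ∃ k₁ : ℕ, ∀ k : ℕ, k₁ ≤ k → k ^ W ≤ b ^ k := by
    obtain ⟨k₁, h1⟩ := Pool.Agent.N469.TL.pow_two_ev' W
    exact ⟨k₁, fun k hk => (h1 k hk).trans (Nat.pow_le_pow_left hb k)⟩
  refine ⟨m₁ + m₂ + K₀ + k₁ + e + 3, fun k hk J s p c hR hps hsp hc F hFc hF => ?_⟩
  have hk3 : (3 : ℝ) ≤ k := by exact_mod_cast (by omega : 3 ≤ k)
  have hk0 : (0 : ℝ) < k := by linarith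
  have hkW := h4 k (by omega)
  have hbz : ∀ j : ℕ, (0 : ℤ) < (b : ℤ) ^ j := fun j => by
    have : (0 : ℤ) < b := by exact_mod_cast (by omega : 0 < b)
    positivity
  obtain ⟨K, hK⟩ : ∃ K, K = k + e - 2 := ⟨_, rfl⟩
  have hK2 : K + 2 = k + e := by omega
  have hone : ∀ a ∈ F, ∀ i ∈ Icc (-((k ^ W : ℕ) : ℤ)) ((k ^ W : ℕ) : ℤ), ∑ ω ∈ Fintype.piFinset (fun j : Fin k => s j),
      (if 0 < (c + i) + ∑ j : Fin k, ω j ∧ ¬ P a ((c + i) + ∑ j : Fin k, ω j).toNat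
        then ∏ j : Fin k, p j (ω j) else 0) ≤ 1 / (k : ℝ) ^ U' := by
    intro a ha i hi
    rw [mem_Icc] at hi
    have t1 := h1 k (by omega) J s p (c + i) hR hps hsp
    have t2 := h2 k (by omega) J s p (c + i) hR hps hsp
    rw [← hK2] at t1 t2
    refine le_trans (le_of_eq ?_) ((h3 K (by omega) _ _ _ _ t1 t2 ?_ a (hF a ha K (by omega) (by omega))
      (fun ω => 0 < (c + i) + ∑ j : Fin k, ω j ∧ ¬ P a ((c + i) + ∑ j : Fin k, ω j).toNat) (fun ω _ h => h)).trans ?_)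
    · apply sum_congr rfl
      intro ω _
      congr
    · intro ω hω
      rw [Fintype.mem_piFinset] at hω
      have q1 : |∑ j : Fin k, ω j| ≤ (B : ℤ) * (b : ℤ) ^ k := by
        have q0 : ∀ j : Fin k, |ω j| ≤ (B : ℤ) * (b : ℤ) ^ (j : ℕ) := fun j => ((hps j j.2).1 _ (hω j)).2
        calc |∑ j : Fin k, ω j| ≤ ∑ j : Fin k, |ω j| := abs_sum_le_sum_abs _ _
          _ ≤ ∑ j : Fin k, (B : ℤ) * (b : ℤ) ^ (j : ℕ) := sum_le_sum fun j _ => q0 j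
          _ = (B : ℤ) * ∑ j : Fin k, (b : ℤ) ^ (j : ℕ) := by rw [mul_sum]
          _ ≤ _ := mul_le_mul_of_nonneg_left (sum_pow_le b hb k) (by positivity)
      have q2 : |i| ≤ (b : ℤ) ^ k := by
        have h6 : ((k ^ W : ℕ) : ℤ) ≤ (b : ℤ) ^ k := by exact_mod_cast hkW
        rw [abs_le]
        constructor <;> linarith [hi.1, hi.2]
      have q3 : |c + i + ∑ j : Fin k, ω j| ≤ |c| + |i| + |∑ j : Fin k, ω j| :=
        (abs_add_le _ _).trans (add_le_add_left (abs_add_le _ _) _)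
      have q4 : (2 * B + 1 : ℤ) ≤ (b : ℤ) ^ (2 * B + 1) := by
        have : 2 * B + 1 ≤ b ^ (2 * B + 1) := (Nat.lt_pow_self (by omega)).le
        exact_mod_cast this
      calc |c + i + ∑ j : Fin k, ω j| ≤ (2 * B + 1) * (b : ℤ) ^ k := by linarith
        _ ≤ (b : ℤ) ^ (2 * B + 1) * (b : ℤ) ^ k := mul_le_mul_of_nonneg_right q4 (hbz k).le
        _ = (b : ℤ) ^ K := by rw [← pow_add, hK, he]; congr 1; omega
    · apply one_div_le_one_div_of_le (by positivity)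
      apply pow_le_pow_left₀ hk0.le
      exact_mod_cast (by omega : k ≤ K)
  have hnn : ∀ ω ∈ Fintype.piFinset (fun j : Fin k => s j), 0 ≤ ∏ j : Fin k, p j (ω j) := by
    intro ω hω
    rw [Fintype.mem_piFinset] at hω
    exact prod_nonneg fun j _ => ((hps j j.2).1 _ (hω j)).1
  obtain ⟨I, hI⟩ : ∃ I : Finset (α × ℤ), I = F ×ˢ Icc (-((k ^ W : ℕ) : ℤ)) ((k ^ W : ℕ) : ℤ) := ⟨_, rfl⟩
  have hle : ∑ ω ∈ Fintype.piFinset (fun j : Fin k => s j), (if ∃ a ∈ F, ∃ m : ℕ, 0 < m ∧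
      |(m : ℤ) - (c + ∑ j : Fin k, ω j)| ≤ (k : ℤ) ^ W ∧ ¬ P a m then ∏ j : Fin k, p j (ω j) else 0) ≤
      ∑ ω ∈ Fintype.piFinset (fun j : Fin k => s j), ∑ i ∈ I,
      (if 0 < (c + i.2) + ∑ j : Fin k, ω j ∧ ¬ P i.1 ((c + i.2) + ∑ j : Fin k, ω j).toNat
        then ∏ j : Fin k, p j (ω j) else 0) := by
    apply sum_le_sum
    intro ω hω
    have hpos := hnn ω hω
    have hterm : ∀ i ∈ I, 0 ≤ (if 0 < (c + i.2) + ∑ j : Fin k, ω j ∧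
        ¬ P i.1 ((c + i.2) + ∑ j : Fin k, ω j).toNat then ∏ j : Fin k, p j (ω j) else 0) := by
      intro i _
      split_ifs
      · exact hpos
      · exact le_rfl
    by_cases h5 : ∃ a ∈ F, ∃ m : ℕ, 0 < m ∧ |(m : ℤ) - (c + ∑ j : Fin k, ω j)| ≤ (k : ℤ) ^ W ∧ ¬ P a m
    · rw [if_pos h5]
      obtain ⟨a, ha, m, m1, m3, m4⟩ := h5
      have hi : (a, (m : ℤ) - (c + ∑ j : Fin k, ω j)) ∈ I := by
        rw [hI, mem_product, mem_Icc]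
        refine ⟨ha, ?_⟩
        push_cast
        exact abs_le.1 m3
      have h6 := single_le_sum (f := fun i : α × ℤ => (if 0 < (c + i.2) + ∑ j : Fin k, ω j ∧
        ¬ P i.1 ((c + i.2) + ∑ j : Fin k, ω j).toNat then ∏ j : Fin k, p j (ω j) else 0)) hterm hi
      refine le_trans (le_of_eq ?_) h6
      have e : c + ((m : ℤ) - (c + ∑ j : Fin k, ω j)) + ∑ j : Fin k, ω j = m := by ring
      show _ = (if 0 < c + ((m : ℤ) - (c + ∑ j : Fin k, ω j)) + ∑ j : Fin k, ω j ∧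
        ¬ P a (c + ((m : ℤ) - (c + ∑ j : Fin k, ω j)) + ∑ j : Fin k, ω j).toNat then ∏ j : Fin k, p j (ω j) else 0)
      rw [e, Int.toNat_natCast, if_pos]
      exact ⟨by exact_mod_cast m1, m4⟩
    · rw [if_neg h5]
      exact sum_nonneg hterm
  refine hle.trans ?_
  rw [sum_comm]
  have hone' : ∀ i ∈ I, ∑ ω ∈ Fintype.piFinset (fun j : Fin k => s j),
      (if 0 < (c + i.2) + ∑ j : Fin k, ω j ∧ ¬ P i.1 ((c + i.2) + ∑ j : Fin k, ω j).toNat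
        then ∏ j : Fin k, p j (ω j) else 0) ≤ 1 / (k : ℝ) ^ U' := by
    intro i hi
    rw [hI, mem_product] at hi
    exact hone i.1 hi.1 i.2 hi.2
  refine (sum_le_sum hone').trans ?_
  rw [sum_const, nsmul_eq_mul, hI, card_product, Int.card_Icc]
  have hcard : ((((k ^ W : ℕ) : ℤ) + 1 - -((k ^ W : ℕ) : ℤ)).toNat : ℝ) ≤ (k : ℝ) ^ (W + 1) := by
    have h6 : (((k ^ W : ℕ) : ℤ) + 1 - -((k ^ W : ℕ) : ℤ)).toNat = 2 * k ^ W + 1 := by omega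
    rw [h6]
    push_cast
    have h7 : (1 : ℝ) ≤ (k : ℝ) ^ W := one_le_pow₀ (by linarith)
    rw [pow_succ]
    nlinarith
  have hFr : (F.card : ℝ) ≤ (k : ℝ) ^ R := by exact_mod_cast hFc
  rw [Nat.cast_mul]
  calc _ ≤ ((k : ℝ) ^ R * (k : ℝ) ^ (W + 1)) * (1 / (k : ℝ) ^ U') :=
        mul_le_mul_of_nonneg_right (mul_le_mul hFr hcard (Nat.cast_nonneg _) (by positivity)) (by positivity)
    _ = 1 / (k : ℝ) ^ U := by
      rw [hU', show U + W + R + 1 = U + (R + (W + 1)) by ring, pow_add _ U, pow_add _ R]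
      field_simp

end Pool.Agent.J4H77.DT
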